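import Pool.Agent.Helper99.WC.Torus
import Pool.Agent.Helper22.WC.Defs

/-!
# WC (MP_fb29e9_nt), block P2: the means of the functions of the largest value of the main sum over all centres converge
-/

open MeasureTheory Real Set Filter Topology

set_option autoImplicit false

namespace Pool.Agent.Helper99.WC

open Pool.Agent.Helper22.AE (nk tk)
open Pool.Agent.Helper93.EX (Mx ak prim sn fJ)

theorem fJ_per99 (J : ℕ) : Function.Periodic (fJ J) 1 := by
  intro x
  unfold fJ
  congr 1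
  refine Finset.sum_congr rfl fun j _ => ?_
  congr 1
  have e : 2 * π * (((j + 1 : ℕ) : ℝ) * (x + 1)) - 3 * π / 4 = (2 * π * (((j + 1 : ℕ) : ℝ) * x) - 3 * π / 4) + ((j + 1 : ℕ) : ℝ) * (2 * π) := by ring
  rw [e, Real.cos_add_nat_mul_two_pi]

theorem fJ_cont99 (J : ℕ) : Continuous (fJ J) := by
  unfold fJ
  fun_prop

/-- the wave on the circle -/
noncomputable def FJ (J : ℕ) : UnitAddCircle → ℝ := (fJ_per99 J).lift

theorem FJ_coe (J : ℕ) (x : ℝ) : FJ J (x : UnitAddCircle) = fJ J x := Function.Periodic.lift_coe _ _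

theorem FJ_cont (J : ℕ) : Continuous (FJ J) := (fJ_cont99 J).quotient_liftOn' _

/-- the frequencies -/
noncomputable def hh (H : ℝ → ℝ) (N : ℕ) (k : {k // k ∈ prim N}) : ℝ := nk k.1 * H (tk k.1)

/-- the main sum on the torus -/
noncomputable def Psi (H : ℝ → ℝ) (N : ℕ) (y : UnitAddTorus {k // k ∈ prim N}) (c : UnitAddCircle × UnitAddCircle) : ℝ :=
  |∑ k : {k // k ∈ prim N}, ak H k.1 * FJ ((N - 1) / sn k.1) (y k + (k.1.1 • c.1 + k.1.2 • c.2))|

theorem Psi_cont (H : ℝ → ℝ) (N : ℕ) : Continuous (fun p : UnitAddTorus {k // k ∈ prim N} × (UnitAddCircle × UnitAddCircle) => Psi H N p.1 p.2) := by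
  unfold Psi
  refine Continuous.abs (continuous_finsetSum _ fun k _ => continuous_const.mul ((FJ_cont _).comp ?_))
  exact ((continuous_apply k).comp continuous_fst).add
    (((continuous_zsmul k.1.1).comp (continuous_fst.comp continuous_snd)).add ((continuous_zsmul k.1.2).comp (continuous_snd.comp continuous_snd)))

theorem Mx_torus (H : ℝ → ℝ) (N : ℕ) (R : ℝ) (c : ℝ × ℝ) :
    |Mx H N R c| = Psi H N (line (hh H N) R) ((c.1 : UnitAddCircle), (c.2 : UnitAddCircle)) := by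
  unfold Mx Psi
  rw [← Finset.sum_coe_sort]
  congr 1
  refine Finset.sum_congr rfl fun k _ => ?_
  congr 1
  rw [← FJ_coe]
  congr 1
  unfold line hh
  rw [AddCircle.coe_add, AddCircle.coe_add, ← zsmul_eq_mul, ← zsmul_eq_mul, AddCircle.coe_zsmul, AddCircle.coe_zsmul]

/-- the largest value over all centres, on the torus -/
noncomputable def Phi (H : ℝ → ℝ) (N : ℕ) (y : UnitAddTorus {k // k ∈ prim N}) : ℝ := ⨆ c : UnitAddCircle × UnitAddCircle, Psi H N y c

theorem Phi_cont (H : ℝ → ℝ) (N : ℕ) : Continuous (Phi H N) := by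
  have h1 := (isCompact_univ (X := UnitAddCircle × UnitAddCircle)).continuous_sSup (f := Psi H N) (Psi_cont H N)
  simp only [image_univ] at h1
  exact h1

theorem sup_torus (H : ℝ → ℝ) (N : ℕ) (R : ℝ) : (⨆ c : ℝ × ℝ, |Mx H N R c|) = Phi H N (line (hh H N) R) := by
  have hsurj : Function.Surjective (fun c : ℝ × ℝ => ((c.1 : UnitAddCircle), (c.2 : UnitAddCircle))) := by
    rintro ⟨a, b⟩
    obtain ⟨x, rfl⟩ := QuotientAddGroup.mk_surjective a
    obtain ⟨y, rfl⟩ := QuotientAddGroup.mk_surjective b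
    exact ⟨(x, y), rfl⟩
  unfold Phi
  rw [← hsurj.iSup_comp]
  exact iSup_congr fun c => Mx_torus H N R c

/-- block P2 -/
theorem sup_mean (H : ℝ → ℝ) (N : ℕ) {φ : ℝ → ℝ} (hφ : Continuous φ) :
    (Continuous fun R : ℝ => ⨆ c : ℝ × ℝ, |Mx H N R c|) ∧ (∀ R : ℝ, BddAbove (range fun c : ℝ × ℝ => |Mx H N R c|)) ∧
    ∃ m : ℝ, ∀ ε : ℝ, 0 < ε → ∃ X₀ : ℝ, 1 ≤ X₀ ∧ ∀ X : ℝ, X₀ ≤ X → |X⁻¹ * (∫ R in Icc X (2 * X), φ (⨆ c : ℝ × ℝ, |Mx H N R c|)) - m| ≤ ε := by
  refine ⟨?_, fun R => ?_, ?_⟩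
  · simp only [sup_torus]
    exact (Phi_cont H N).comp (line_cont _)
  · have h1 : BddAbove (range fun c : UnitAddCircle × UnitAddCircle => Psi H N (line (hh H N) R) c) := by
      have h2 : Continuous fun c : UnitAddCircle × UnitAddCircle => Psi H N (line (hh H N) R) c :=
        (Psi_cont H N).comp (continuous_const.prodMk continuous_id)
      rw [← image_univ]
      exact (isCompact_univ.image h2).bddAbove
    obtain ⟨B, hB⟩ := h1
    refine ⟨B, ?_⟩
    rintro _ ⟨c, rfl⟩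
    have h3 := Mx_torus H N R c
    simp only [h3]
    exact hB ⟨_, rfl⟩
  · simp only [sup_torus]
    exact mean_torus_real (hh H N) (F := fun y => φ (Phi H N y)) (hφ.comp (Phi_cont H N))

end Pool.Agent.Helper99.WC
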