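import Mathlib

/-!
# WC (MP_fb29e9_nt), pure block: the means of the continuous functions on a torus along a line converge
-/

open MeasureTheory Real Set Filter Topology

set_option autoImplicit false

namespace Pool.Agent.Helper99.WC

/-- the mean over `[X, 2X]` -/
noncomputable def meanC (F : ℝ → ℂ) (X : ℝ) : ℂ := ((X⁻¹ : ℝ) : ℂ) * ∫ R in Icc X (2 * X), F R

theorem meanC_add {F G : ℝ → ℂ} (hF : Continuous F) (hG : Continuous G) (X : ℝ) :
    meanC (fun R => F R + G R) X = meanC F X + meanC G X := by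
  unfold meanC
  rw [integral_add (hF.continuousOn.integrableOn_compact isCompact_Icc) (hG.continuousOn.integrableOn_compact isCompact_Icc), mul_add]

theorem meanC_mul (a : ℂ) (F : ℝ → ℂ) (X : ℝ) : meanC (fun R => a * F R) X = a * meanC F X := by
  unfold meanC
  rw [integral_const_mul]
  ring

theorem meanC_dist {F G : ℝ → ℂ} (hF : Continuous F) (hG : Continuous G) {e : ℝ} (h : ∀ R, ‖F R - G R‖ ≤ e) {X : ℝ} (hX : 1 ≤ X) :
    dist (meanC F X) (meanC G X) ≤ e := by
  have hX0 : 0 < X := by linarith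
  have e1 : meanC F X - meanC G X = ((X⁻¹ : ℝ) : ℂ) * ∫ R in Icc X (2 * X), (F R - G R) := by
    unfold meanC
    rw [integral_sub (hF.continuousOn.integrableOn_compact isCompact_Icc) (hG.continuousOn.integrableOn_compact isCompact_Icc), mul_sub]
  rw [dist_eq_norm, e1, norm_mul, Complex.norm_real, Real.norm_eq_abs, abs_of_pos (inv_pos.2 hX0)]
  have h1 := norm_setIntegral_le_of_norm_le_const (μ := volume) (s := Icc X (2 * X)) (f := fun R => F R - G R) (C := e)
    measure_Icc_lt_top fun R _ => h R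
  have h2 : volume.real (Icc X (2 * X)) = X := by
    rw [Real.volume_real_Icc_of_le (by linarith)]
    ring
  rw [h2] at h1
  calc X⁻¹ * ‖∫ R in Icc X (2 * X), (F R - G R)‖ ≤ X⁻¹ * (e * X) := mul_le_mul_of_nonneg_left h1 (inv_nonneg.2 hX0.le)
    _ = e := by field_simp

/-- the means of a character converge -/
theorem mean_exp (a : ℝ) : ∃ M : ℂ, Tendsto (meanC fun R => Complex.exp (2 * π * Complex.I * ((R * a : ℝ) : ℂ))) atTop (𝓝 M) := by
  by_cases ha : a = 0
  · subst ha
    refine ⟨1, ?_⟩
    refine tendsto_const_nhds.congr' ?_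
    filter_upwards [eventually_ge_atTop (1 : ℝ)] with X hX
    have hX0 : 0 < X := by linarith
    unfold meanC
    simp only [mul_zero, Complex.ofReal_zero, Complex.exp_zero]
    rw [setIntegral_const, Real.volume_real_Icc_of_le (by linarith), Complex.real_smul, mul_one]
    have : ((2 * X - X : ℝ) : ℂ) = (X : ℂ) := by push_cast; ring
    rw [this, Complex.ofReal_inv, inv_mul_cancel₀ (by exact_mod_cast hX0.ne')]
  · refine ⟨0, ?_⟩
    rw [tendsto_zero_iff_norm_tendsto_zero]
    have hc : (2 * π * Complex.I * (a : ℂ)) ≠ 0 := by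
      have : (a : ℂ) ≠ 0 := by exact_mod_cast ha
      have h3 : (π : ℂ) ≠ 0 := by exact_mod_cast Real.pi_ne_zero
      simp [this, h3, Complex.I_ne_zero]
    have h1 : ∀ X : ℝ, 1 ≤ X → ‖meanC (fun R => Complex.exp (2 * π * Complex.I * ((R * a : ℝ) : ℂ))) X‖ ≤
        X⁻¹ * (2 / ‖(2 * π * Complex.I * (a : ℂ))‖) := by
      intro X hX
      have hX0 : 0 < X := by linarith
      unfold meanC
      rw [norm_mul, Complex.norm_real, Real.norm_eq_abs, abs_of_pos (inv_pos.2 hX0)]
      refine mul_le_mul_of_nonneg_left ?_ (inv_nonneg.2 hX0.le)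
      rw [integral_Icc_eq_integral_Ioc, ← intervalIntegral.integral_of_le (by linarith)]
      have e1 : (fun R : ℝ => Complex.exp (2 * π * Complex.I * ((R * a : ℝ) : ℂ))) =
          fun R : ℝ => Complex.exp ((2 * π * Complex.I * (a : ℂ)) * R) := by
        funext R
        congr 1
        push_cast
        ring
      rw [e1, integral_exp_mul_complex hc, norm_div]
      refine div_le_div_of_nonneg_right ?_ (norm_nonneg _)
      have h2 : ∀ R : ℝ, ‖Complex.exp ((2 * π * Complex.I * (a : ℂ)) * R)‖ = 1 := by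
        intro R
        have : (2 * π * Complex.I * (a : ℂ)) * R = ((2 * π * a * R : ℝ) : ℂ) * Complex.I := by push_cast; ring
        rw [this, Complex.norm_exp_ofReal_mul_I]
      refine (norm_sub_le _ _).trans ?_
      rw [h2, h2]
      norm_num
    refine squeeze_zero' (Eventually.of_forall fun X => norm_nonneg _) ((eventually_ge_atTop (1 : ℝ)).mono h1) ?_
    have := tendsto_inv_atTop_zero (𝕜 := ℝ)
    simpa using this.mul_const (2 / ‖(2 * π * Complex.I * (a : ℂ))‖)

variable {ι : Type*} [Fintype ι]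

/-- the line `R ↦ R h` on the torus -/
noncomputable def line (h : ι → ℝ) (R : ℝ) : UnitAddTorus ι := fun i => ((R * h i : ℝ) : UnitAddCircle)

omit [Fintype ι] in
theorem line_cont (h : ι → ℝ) : Continuous (line h) := by
  refine continuous_pi fun i => ?_
  exact (AddCircle.continuous_mk' (1 : ℝ)).comp (continuous_id.mul continuous_const)

theorem mFourier_line (h : ι → ℝ) (n : ι → ℤ) (R : ℝ) :
    UnitAddTorus.mFourier n (line h R) = Complex.exp (2 * π * Complex.I * ((R * ∑ i, n i * h i : ℝ) : ℂ)) := by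
  unfold UnitAddTorus.mFourier line
  rw [ContinuousMap.coe_mk]
  simp only [fourier_coe_apply]
  rw [← Complex.exp_sum]
  congr 1
  push_cast
  rw [Finset.mul_sum, Finset.mul_sum]
  refine Finset.sum_congr rfl fun i _ => ?_
  ring

/-- the means of a continuous function on the torus along the line converge -/
theorem mean_torus (h : ι → ℝ) (F : C(UnitAddTorus ι, ℂ)) : ∃ M : ℂ, Tendsto (meanC fun R => F (line h R)) atTop (𝓝 M) := by
  have hcl : F ∈ closure ((Submodule.span ℂ (range (UnitAddTorus.mFourier (d := ι))) : Submodule ℂ C(UnitAddTorus ι, ℂ)) : Set C(UnitAddTorus ι, ℂ)) := by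
    have h1 := UnitAddTorus.span_mFourier_closure_eq_top (d := ι)
    rw [← Submodule.topologicalClosure_coe, h1]
    trivial
  have hspan : ∀ P ∈ (Submodule.span ℂ (range (UnitAddTorus.mFourier (d := ι))) : Submodule ℂ C(UnitAddTorus ι, ℂ)),
      ∃ M : ℂ, Tendsto (meanC fun R => P (line h R)) atTop (𝓝 M) := by
    intro P hP
    induction hP using Submodule.span_induction with
    | mem x hx =>
      obtain ⟨n, rfl⟩ := hx
      obtain ⟨M, hM⟩ := mean_exp (∑ i, n i * h i)
      refine ⟨M, hM.congr fun X => ?_⟩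
      congr 1
      funext R
      rw [mFourier_line]
    | zero =>
      refine ⟨0, ?_⟩
      have : (meanC fun R => (0 : C(UnitAddTorus ι, ℂ)) (line h R)) = fun _ => 0 := by
        funext X
        unfold meanC
        simp
      rw [this]
      exact tendsto_const_nhds
    | add x y _ _ hx hy =>
      obtain ⟨M1, h1⟩ := hx
      obtain ⟨M2, h2⟩ := hy
      refine ⟨M1 + M2, (h1.add h2).congr fun X => ?_⟩
      exact (meanC_add (F := fun R => x (line h R)) (G := fun R => y (line h R)) (x.continuous.comp (line_cont h))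
        (y.continuous.comp (line_cont h)) X).symm
    | smul a x _ hx =>
      obtain ⟨M1, h1⟩ := hx
      refine ⟨a * M1, (h1.const_mul a).congr fun X => ?_⟩
      rw [← meanC_mul]
      rfl
  have hcauchy : Cauchy (map (meanC fun R => F (line h R)) atTop) := by
    rw [Metric.cauchy_iff]
    refine ⟨inferInstance, fun ε hε => ?_⟩
    obtain ⟨P, hP, hd⟩ := Metric.mem_closure_iff.1 hcl (ε / 4) (by positivity)
    obtain ⟨M, hM⟩ := hspan P hP
    have h1 := (Metric.tendsto_nhds.1 hM) (ε / 4) (by positivity)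
    have h2 : ∀ X : ℝ, 1 ≤ X → dist (meanC (fun R => F (line h R)) X) (meanC (fun R => P (line h R)) X) ≤ ε / 4 := by
      intro X hX
      refine meanC_dist (F.continuous.comp (line_cont h)) (P.continuous.comp (line_cont h)) (fun R => ?_) hX
      rw [← dist_eq_norm]
      exact (ContinuousMap.dist_apply_le_dist _).trans hd.le
    refine ⟨(meanC fun R => F (line h R)) '' {X | 1 ≤ X ∧ dist (meanC (fun R => P (line h R)) X) M < ε / 4}, ?_, ?_⟩
    · refine image_mem_map ?_
      filter_upwards [h1, eventually_ge_atTop (1 : ℝ)] with X h3 h4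
      exact ⟨h4, h3⟩
    · rintro _ ⟨X, ⟨hX, hX2⟩, rfl⟩ _ ⟨Y, ⟨hY, hY2⟩, rfl⟩
      have h3 := h2 X hX
      have h4 := h2 Y hY
      have h5 : dist (meanC (fun R => F (line h R)) X) M < ε / 2 := by
        have := dist_triangle (meanC (fun R => F (line h R)) X) (meanC (fun R => P (line h R)) X) M
        linarith
      have h6 : dist (meanC (fun R => F (line h R)) Y) M < ε / 2 := by
        have := dist_triangle (meanC (fun R => F (line h R)) Y) (meanC (fun R => P (line h R)) Y) M
        linarith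
      have h7 := dist_triangle_right (meanC (fun R => F (line h R)) X) (meanC (fun R => F (line h R)) Y) M
      linarith
  obtain ⟨M, hM⟩ := CompleteSpace.complete hcauchy
  exact ⟨M, hM⟩

/-- the real form -/
theorem mean_torus_real (h : ι → ℝ) {F : UnitAddTorus ι → ℝ} (hF : Continuous F) :
    ∃ m : ℝ, ∀ ε : ℝ, 0 < ε → ∃ X₀ : ℝ, 1 ≤ X₀ ∧ ∀ X : ℝ, X₀ ≤ X → |X⁻¹ * (∫ R in Icc X (2 * X), F (line h R)) - m| ≤ ε := by
  obtain ⟨M, hM⟩ := mean_torus h ⟨fun y => (F y : ℂ), Complex.continuous_ofReal.comp hF⟩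
  refine ⟨M.re, fun ε hε => ?_⟩
  obtain ⟨X₁, hX₁⟩ := eventually_atTop.1 ((Metric.tendsto_nhds.1 hM) ε hε)
  refine ⟨max 1 X₁, le_max_left _ _, fun X hX => ?_⟩
  have h1 := hX₁ X ((le_max_right _ _).trans hX)
  have e1 : meanC (fun R => (F (line h R) : ℂ)) X = ((X⁻¹ * (∫ R in Icc X (2 * X), F (line h R)) : ℝ) : ℂ) := by
    unfold meanC
    rw [integral_complex_ofReal]
    push_cast
    ring
  have h2 : dist (meanC (fun R => (F (line h R) : ℂ)) X) M < ε := h1
  rw [e1, dist_eq_norm] at h2
  have h3 := Complex.abs_re_le_norm (((X⁻¹ * (∫ R in Icc X (2 * X), F (line h R)) : ℝ) : ℂ) - M)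
  rw [Complex.sub_re, Complex.ofReal_re] at h3
  exact h3.trans h2.le

end Pool.Agent.Helper99.WC
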